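import Pool.Agent.Y506.RG.Stm

/-!
# Absolute bounds for one-dimensional log-concave densities (`S_ONE`)
-/

set_option autoImplicit false

namespace Pool.Agent.Y849.RG

open MeasureTheory Set Filter Topology
open Pool.Agent.Y506.RG

/-! ### exponential functions -/

theorem exp_abs (c : ℝ) (hc : 0 < c) (b : ℝ) :
    Integrable (fun s : ℝ => Real.exp (-(c * |s - b|))) ∧
      ∫ s : ℝ, Real.exp (-(c * |s - b|)) = 2 / c := by
  have h1 : IntegrableOn (fun s : ℝ => Real.exp (-(c * |s|))) (Ioi 0) := by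
    refine (integrableOn_exp_mul_Ioi (a := -c) (by linarith) 0).congr_fun ?_ measurableSet_Ioi
    intro s hs
    simp only [mem_Ioi] at hs
    simp only [abs_of_pos hs, neg_mul]
  have h2 : IntegrableOn (fun s : ℝ => Real.exp (-(c * |s|))) (Iic 0) := by
    have h3 := (integrableOn_Ici_iff_integrableOn_Ioi (μ := volume)).2 h1
    have h4 := h3.comp_neg
    rw [Set.neg_Ici, neg_zero] at h4
    refine h4.congr_fun ?_ measurableSet_Iic
    intro s _
    simp only [abs_neg]
  have h5 : Integrable (fun s : ℝ => Real.exp (-(c * |s|))) := by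
    rw [← integrableOn_univ, ← Iic_union_Ioi (a := (0:ℝ))]
    exact h2.union h1
  have h6 : ∫ s : ℝ, Real.exp (-(c * |s|)) = 2 / c := by
    rw [integral_comp_abs (f := fun s => Real.exp (-(c * s)))]
    have h7 : ∫ s in Ioi (0:ℝ), Real.exp (-(c * s)) = 1 / c := by
      have := integral_exp_mul_Ioi (a := -c) (by linarith) 0
      simp only [neg_mul] at this
      rw [this]
      simp
    rw [h7]
    ring
  constructor
  · exact h5.comp_sub_right b
  · rw [← h6]
    exact integral_sub_right_eq_self (fun s : ℝ => Real.exp (-(c * |s|))) b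

/-! ### log-concavity -/

variable {f : ℝ → ℝ}

theorem conc (h : ND f) : ConcaveOn ℝ univ fun s => Real.log (f s) := by
  refine ⟨convex_univ, fun x _ y _ a b ha hb hab => ?_⟩
  simp only [smul_eq_mul]
  rcases ha.eq_or_lt with rfl | ha'
  · rw [zero_add] at hab
    subst hab
    simp
  rcases hb.eq_or_lt with rfl | hb'
  · rw [add_zero] at hab
    subst hab
    simp
  have hb1 : b < 1 := by linarith
  have h1 := h.lc x y b hb' hb1
  have ha1 : 1 - b = a := by linarith
  rw [ha1] at h1
  have h2 := Real.log_le_log (by have := h.pos x; have := h.pos y; positivity) h1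
  rw [Real.log_mul (by have := h.pos x; positivity) (by have := h.pos y; positivity),
    Real.log_rpow (h.pos x), Real.log_rpow (h.pos y)] at h2
  exact h2

/-- extrapolation -/
theorem slope (h : ND f) {x y s : ℝ} (hxy : x < y) (hys : y ≤ s) :
    Real.log (f s) ≤ Real.log (f x) +
      (Real.log (f y) - Real.log (f x)) * ((s - x) / (y - x)) := by
  have hsx : 0 < s - x := by linarith
  have hyx : 0 < y - x := by linarith
  have h1 := (conc h).2 (mem_univ x) (mem_univ s)
    (show 0 ≤ (s - y) / (s - x) by apply div_nonneg <;> linarith)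
    (show 0 ≤ (y - x) / (s - x) by positivity) (by field_simp; ring)
  simp only [smul_eq_mul] at h1
  have h2 : (s - y) / (s - x) * x + (y - x) / (s - x) * s = y := by
    field_simp
    ring
  rw [h2] at h1
  have h3 : (s - y) / (s - x) * Real.log (f x) + (y - x) / (s - x) * Real.log (f s) =
    ((s - y) * Real.log (f x) + (y - x) * Real.log (f s)) / (s - x) := by ring
  rw [h3, div_le_iff₀ hsx] at h1
  have h4 : Real.log (f x) + (Real.log (f y) - Real.log (f x)) * ((s - x) / (y - x)) =
    ((y - x) * Real.log (f x) + (Real.log (f y) - Real.log (f x)) * (s - x)) / (y - x) := by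
    field_simp
  rw [h4, le_div_iff₀ hyx]
  nlinarith

/-- a lower bound on segments -/
theorem minb (h : ND f) {x y z m : ℝ} (hm : 0 < m) (hxz : x ≤ z) (hzy : z ≤ y) (h1 : m ≤ f x)
    (h2 : m ≤ f y) : m ≤ f z := by
  have h3 := (conc h).min_le_of_mem_Icc (mem_univ x) (mem_univ y) ⟨hxz, hzy⟩
  have h4 : Real.log m ≤ min (Real.log (f x)) (Real.log (f y)) :=
    le_min (Real.log_le_log hm h1) (Real.log_le_log hm h2)
  exact (Real.log_le_log_iff hm (h.pos z)).1 (h4.trans h3)

/-- four points -/
theorem four (h : ND f) {t r : ℝ} (ht : 0 ≤ t) (hr : 0 ≤ r) : f (t + r) * f 0 ≤ f t * f r := by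
  rcases (add_nonneg ht hr).eq_or_lt with h0 | h0
  · have : t = 0 := by linarith
    have : r = 0 := by linarith
    subst_vars
    simp
  · have p1 : 0 ≤ t / (t + r) := by positivity
    have p2 : 0 ≤ r / (t + r) := by positivity
    have h1 := (conc h).2 (mem_univ (t + r)) (mem_univ 0) p1 p2 (by field_simp)
    have h2 := (conc h).2 (mem_univ (t + r)) (mem_univ 0) p2 p1 (by field_simp; ring)
    simp only [smul_eq_mul, mul_zero, add_zero] at h1 h2
    have e1 : t / (t + r) * (t + r) = t := by field_simp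
    have e2 : r / (t + r) * (t + r) = r := by field_simp
    rw [e1] at h1
    rw [e2] at h2
    have h3 : Real.log (f (t + r)) + Real.log (f 0) ≤ Real.log (f t) + Real.log (f r) := by
      have e3 : t / (t + r) + r / (t + r) = 1 := by field_simp
      have e4 : t / (t + r) * Real.log (f (t + r)) + r / (t + r) * Real.log (f 0) +
          (r / (t + r) * Real.log (f (t + r)) + t / (t + r) * Real.log (f 0)) =
          (t / (t + r) + r / (t + r)) * (Real.log (f (t + r)) + Real.log (f 0)) := by ring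
      rw [e3, one_mul] at e4
      linarith
    rw [← Real.log_mul (h.pos _).ne' (h.pos _).ne', ← Real.log_mul (h.pos _).ne' (h.pos _).ne'] at h3
    exact (Real.log_le_log_iff (mul_pos (h.pos _) (h.pos _)) (mul_pos (h.pos _) (h.pos _))).1 h3

/-! ### reflection -/

theorem refl (h : ND f) : ND fun s => f (-s) where
  pos s := h.pos _
  cont := h.cont.comp continuous_neg
  lc x y t ht0 ht1 := by
    have := h.lc (-x) (-y) t ht0 ht1
    have e : (1 - t) * -x + t * -y = -((1 - t) * x + t * y) := by ring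
    rw [e] at this
    exact this
  int0 := h.int0.comp_neg
  int2 := by
    have := h.int2.comp_neg
    simpa using this
  mass := by
    rw [integral_neg_eq_self f]
    exact h.mass
  mean := by
    have h1 := integral_neg_eq_self (fun s => s * f s) volume
    rw [h.mean] at h1
    have h2 : (fun s : ℝ => s * f (-s)) = fun s => -(-s * f (-s)) := by
      funext s
      ring
    rw [h2, integral_neg, h1, neg_zero]
  var := by
    have h1 := integral_neg_eq_self (fun s => s ^ 2 * f s) volume
    rw [h.var] at h1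
    simpa using h1

/-! ### moments -/

theorem int1 (h : ND f) : Integrable fun s => s * f s := by
  refine (h.int0.add h.int2).mono' (by
    exact (continuous_id.mul h.cont).aestronglyMeasurable) (Eventually.of_forall fun s => ?_)
  rw [Real.norm_eq_abs, abs_mul, abs_of_pos (h.pos s)]
  simp only [Pi.add_apply]
  have h1 : |s| ≤ 1 + s ^ 2 := by
    have := sq_abs s
    nlinarith [sq_nonneg (|s| - 1)]
  nlinarith [h.pos s]

theorem int1' (h : ND f) : Integrable fun s => |s| * f s := by
  refine (int1 h).norm.congr (Eventually.of_forall fun s => ?_)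
  simp only [Real.norm_eq_abs, abs_mul, abs_of_pos (h.pos s)]

/-- mass of a set -/
theorem cheb (h : ND f) {S : Set ℝ} (hS : MeasurableSet S) {R : ℝ} (hR : 0 < R) :
    ∫ s in S, f s ≤ (∫ s in S ∩ Icc (-R) R, f s) + 1 / R ^ 2 := by
  have h1 : ∫ s in S, f s = (∫ s in S ∩ Icc (-R) R, f s) + ∫ s in S \ Icc (-R) R, f s :=
    (integral_inter_add_sdiff measurableSet_Icc h.int0.integrableOn).symm
  have h2 : ∫ s in S \ Icc (-R) R, f s ≤ ∫ s in S \ Icc (-R) R, s ^ 2 * f s / R ^ 2 := by
    refine setIntegral_mono_on h.int0.integrableOn (h.int2.div_const _).integrableOn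
      (hS.diff measurableSet_Icc) fun s hs => ?_
    have h3 : R ^ 2 ≤ s ^ 2 := by
      have h4 : ¬ (-R ≤ s ∧ s ≤ R) := hs.2
      rw [← abs_le] at h4
      push Not at h4
      rw [← sq_abs s]
      exact pow_le_pow_left₀ hR.le h4.le 2
    rw [le_div_iff₀ (by positivity)]
    nlinarith [h.pos s]
  have h3 : ∫ s in S \ Icc (-R) R, s ^ 2 * f s / R ^ 2 ≤ ∫ s, s ^ 2 * f s / R ^ 2 :=
    setIntegral_le_integral (h.int2.div_const _) (Eventually.of_forall fun s => by
      have := h.pos s
      positivity)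
  have h4 : ∫ s, s ^ 2 * f s / R ^ 2 = 1 / R ^ 2 := by
    rw [integral_div, h.var]
  linarith

theorem ex_ge (h : ND f) {a b m : ℝ} (hab : a ≤ b) (hm : m * (b - a) < ∫ s in Icc a b, f s) :
    ∃ s ∈ Icc a b, m < f s := by
  by_contra hcon
  push Not at hcon
  have h1 : ∫ s in Icc a b, f s ≤ ∫ s in Icc a b, m :=
    setIntegral_mono_on h.int0.integrableOn (by simp) measurableSet_Icc hcon
  rw [setIntegral_const] at h1
  simp only [smul_eq_mul, Measure.real, Real.volume_Icc] at h1
  rw [ENNReal.toReal_ofReal (by linarith)] at h1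
  linarith

theorem ex_le (h : ND f) {a b m : ℝ} (hab : a ≤ b) (hm : ∫ s in Icc a b, f s < m * (b - a)) :
    ∃ s ∈ Icc a b, f s < m := by
  by_contra hcon
  push Not at hcon
  have h1 : ∫ s in Icc a b, m ≤ ∫ s in Icc a b, f s :=
    setIntegral_mono_on (by simp) h.int0.integrableOn measurableSet_Icc hcon
  rw [setIntegral_const] at h1
  simp only [smul_eq_mul, Measure.real, Real.volume_Icc] at h1
  rw [ENNReal.toReal_ofReal (by linarith)] at h1
  linarith

theorem mass_le (h : ND f) (S : Set ℝ) : ∫ s in S, f s ≤ 1 := by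
  rw [← h.mass]
  exact setIntegral_le_integral h.int0 (Eventually.of_forall fun s => (h.pos s).le)

theorem lower (h : ND f) {a b m : ℝ} (hab : a ≤ b) (hm : ∀ s ∈ Icc a b, m ≤ f s) :
    m * (b - a) ≤ 1 := by
  by_contra hcon
  push Not at hcon
  obtain ⟨s, hs, hs'⟩ := ex_le h hab ((mass_le h _).trans_lt hcon)
  exact absurd (hm s hs) (not_le.2 hs')

/-- a point with a large value -/
theorem t1 (h : ND f) : ∃ t ∈ Icc (-2 : ℝ) 2, 1 / 8 < f t := by
  refine ex_ge h (by norm_num) ?_
  have h1 := cheb h MeasurableSet.univ (R := 2) (by norm_num)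
  rw [setIntegral_univ, h.mass, univ_inter] at h1
  norm_num at h1 ⊢
  linarith

/-- a point with a small value -/
theorem x2 (h : ND f) : ∃ x ∈ Icc (7 : ℝ) 15, f x < 1 / 200 := by
  refine ex_le h (by norm_num) ?_
  have h1 := cheb h (S := Icc 7 15) measurableSet_Icc (R := 6) (by norm_num)
  have h2 : Icc (7 : ℝ) 15 ∩ Icc (-6) 6 = ∅ := by
    ext s
    simp only [mem_inter_iff, mem_Icc, mem_empty_iff_false, iff_false]
    intro h3
    linarith [h3.1.1, h3.2.2]
  rw [h2, setIntegral_empty] at h1
  norm_num at h1 ⊢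
  linarith

/-- a global maximum -/
theorem gmax (h : ND f) : ∃ a, (∀ s, f s ≤ f a) ∧ 1 / 8 < f a := by
  obtain ⟨t, ht, ht1⟩ := t1 h
  obtain ⟨a, -, ha⟩ := (isCompact_Icc (a := (-12 : ℝ)) (b := 12)).exists_isMaxOn
    (nonempty_Icc.2 (by norm_num)) h.cont.continuousOn
  have hta : 1 / 8 < f a := ht1.trans_le (ha ⟨by linarith [ht.1], by linarith [ht.2]⟩)
  refine ⟨a, fun s => ?_, hta⟩
  by_cases hs : s ∈ Icc (-12 : ℝ) 12
  · exact ha hs
  · by_contra hcon
    push Not at hcon
    have hs8 : 1 / 8 ≤ f s := by linarith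
    rw [mem_Icc, not_and_or, not_le, not_le] at hs
    rcases hs with hs | hs
    · have h1 := lower h (a := s) (b := t) (m := 1 / 8) (by linarith [ht.1]) fun z hz =>
        minb h (by norm_num) hz.1 hz.2 hs8 ht1.le
      linarith [ht.1]
    · have h1 := lower h (a := t) (b := s) (m := 1 / 8) (by linarith [ht.2]) fun z hz =>
        minb h (by norm_num) hz.1 hz.2 ht1.le hs8
      linarith [ht.2]

/-- decay to the right of the maximum -/
theorem decR (h : ND f) {a : ℝ} (ha : ∀ s, f s ≤ f a) {s : ℝ} (hs : a ≤ s) :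
    f s ≤ 3 * f a * Real.exp (-(f a / 4 * |s - a|)) := by
  have hM := h.pos a
  set M := f a with hMd
  rw [abs_of_nonneg (by linarith)]
  by_cases hs1 : s ≤ a + 4 / M
  · have h1 : M / 4 * (s - a) ≤ 1 := by
      have : s - a ≤ 4 / M := by linarith
      calc M / 4 * (s - a) ≤ M / 4 * (4 / M) := by
            exact mul_le_mul_of_nonneg_left this (by positivity)
        _ = 1 := by field_simp
    have h2 : Real.exp (-1) ≤ Real.exp (-(M / 4 * (s - a))) := Real.exp_le_exp.2 (by linarith)
    have h3 : 1 / 3 ≤ Real.exp (-1) := by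
      rw [Real.exp_neg, one_div]
      exact inv_anti₀ (Real.exp_pos _) (by linarith [Real.exp_one_lt_d9])
    have h4 := ha s
    nlinarith
  · push Not at hs1
    have h4M : 0 < 4 / M := by positivity
    have h1 : f (a + 4 / M) ≤ M / 4 := by
      have h2 := lower h (a := a) (b := a + 4 / M) (m := f (a + 4 / M)) (by linarith) fun z hz =>
        minb h (h.pos _) hz.1 hz.2 (ha _) le_rfl
      rw [add_sub_cancel_left, mul_div_assoc', div_le_one hM] at h2
      linarith
    have h2 := slope h (x := a) (y := a + 4 / M) (s := s) (by linarith) hs1.le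
    rw [← hMd, add_sub_cancel_left] at h2
    have h3 : Real.log (f (a + 4 / M)) - Real.log M ≤ -1 := by
      have h5 := Real.log_le_log (h.pos _) h1
      rw [Real.log_div hM.ne' (by norm_num)] at h5
      have h6 : 1 ≤ Real.log 4 := by
        rw [Real.le_log_iff_exp_le (by norm_num)]
        linarith [Real.exp_one_lt_d9]
      linarith
    have h4 : (s - a) / (4 / M) = M / 4 * (s - a) := by field_simp
    rw [h4] at h2
    have h5 : 0 ≤ M / 4 * (s - a) := by
      have : 0 ≤ s - a := by linarith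
      positivity
    have h6 : Real.log (f s) ≤ Real.log M - M / 4 * (s - a) := by nlinarith
    have h7 : f s ≤ M * Real.exp (-(M / 4 * (s - a))) := by
      have h8 := Real.exp_le_exp.2 h6
      rw [Real.exp_log (h.pos s), Real.exp_sub, Real.exp_log hM] at h8
      rw [Real.exp_neg]
      exact h8
    have h9 := Real.exp_pos (-(M / 4 * (s - a)))
    nlinarith

/-- decay away from the maximum -/
theorem dec (h : ND f) {a : ℝ} (ha : ∀ s, f s ≤ f a) (s : ℝ) :
    f s ≤ 3 * f a * Real.exp (-(f a / 4 * |s - a|)) := by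
  rcases le_total a s with hs | hs
  · exact decR h ha hs
  · have h1 := decR (refl h) (a := -a) (by intro s; simpa using ha (-s)) (s := -s) (by linarith)
    simp only [neg_neg] at h1
    have e : |-s - -a| = |s - a| := by
      rw [show -s - -a = -(s - a) by ring, abs_neg]
    rw [e] at h1
    exact h1

theorem sq_exp {x : ℝ} (hx : 0 ≤ x) : x ^ 2 ≤ 2 * Real.exp x := by
  have := Real.quadratic_le_exp_of_nonneg hx
  nlinarith

theorem four_exp {x : ℝ} (hx : 0 ≤ x) : x ^ 4 ≤ 24 * Real.exp x := by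
  have := Real.pow_div_factorial_le_exp x hx 4
  norm_num [Nat.factorial] at this
  linarith

/-- the density is bounded -/
theorem bound (h : ND f) (s : ℝ) : f s ≤ 80 := by
  obtain ⟨a, ha, ha8⟩ := gmax h
  refine (ha s).trans ?_
  have hM := h.pos a
  have hd := dec h ha
  set M := f a with hMd
  -- the second moment about `a`
  have h1 : Integrable (fun s => (s - a) ^ 2 * f s) := by
    refine ((h.int2.sub ((int1 h).const_mul (2 * a))).add (h.int0.const_mul (a ^ 2))).congr
      (Eventually.of_forall fun s => ?_)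
    simp only [Pi.add_apply, Pi.sub_apply]
    ring
  have h2 : 1 ≤ ∫ s, (s - a) ^ 2 * f s := by
    have e : (fun s => (s - a) ^ 2 * f s) =
        fun s => s ^ 2 * f s - 2 * a * (s * f s) + a ^ 2 * f s := by
      funext s
      ring
    have i1 : Integrable fun s => s ^ 2 * f s - 2 * a * (s * f s) :=
      h.int2.sub ((int1 h).const_mul (2 * a))
    rw [e, integral_add i1 (h.int0.const_mul (a ^ 2)),
      integral_sub h.int2 ((int1 h).const_mul (2 * a)), integral_const_mul, integral_const_mul,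
      h.var, h.mean, h.mass]
    nlinarith [sq_nonneg a]
  set c : ℝ := M / 8 with hc
  have hc0 : 0 < c := by positivity
  obtain ⟨hi, hv⟩ := exp_abs c hc0 a
  have h3 : ∫ s, (s - a) ^ 2 * f s ≤ ∫ s, 3 * M * (2 / c ^ 2) * Real.exp (-(c * |s - a|)) := by
    refine integral_mono h1 (hi.const_mul _) fun s => ?_
    have e1 := hd s
    have e2 := sq_exp (x := c * |s - a|) (by positivity)
    have e3 : (s - a) ^ 2 = (c * |s - a|) ^ 2 / c ^ 2 := by
      rw [mul_pow, sq_abs]
      field_simp
    have e4 : Real.exp (-(M / 4 * |s - a|)) =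
        Real.exp (-(c * |s - a|)) * Real.exp (-(c * |s - a|)) := by
      rw [← Real.exp_add]
      congr 1
      rw [hc]
      ring
    have e5 : Real.exp (c * |s - a|) * Real.exp (-(c * |s - a|)) = 1 := by
      rw [← Real.exp_add, add_neg_cancel, Real.exp_zero]
    show (s - a) ^ 2 * f s ≤ 3 * M * (2 / c ^ 2) * Real.exp (-(c * |s - a|))
    calc (s - a) ^ 2 * f s ≤ (s - a) ^ 2 * (3 * M * Real.exp (-(M / 4 * |s - a|))) :=
          mul_le_mul_of_nonneg_left e1 (sq_nonneg _)
      _ = (c * |s - a|) ^ 2 * (3 * M / c ^ 2 * (Real.exp (-(c * |s - a|)) *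
          Real.exp (-(c * |s - a|)))) := by
          rw [e3, e4]
          ring
      _ ≤ 2 * Real.exp (c * |s - a|) * (3 * M / c ^ 2 * (Real.exp (-(c * |s - a|)) *
          Real.exp (-(c * |s - a|)))) := by
          refine mul_le_mul_of_nonneg_right e2 ?_
          positivity
      _ = 3 * M * (2 / c ^ 2) * (Real.exp (c * |s - a|) * Real.exp (-(c * |s - a|))) *
          Real.exp (-(c * |s - a|)) := by ring
      _ = _ := by rw [e5, mul_one]
  rw [integral_const_mul, hv] at h3
  have h4 : 3 * M * (2 / c ^ 2) * (2 / c) = 6144 / M ^ 2 := by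
    rw [hc]
    field_simp
    norm_num
  rw [h4] at h3
  have h5 : 1 ≤ 6144 / M ^ 2 := h2.trans h3
  rw [le_div_iff₀ (by positivity)] at h5
  nlinarith

theorem tailR (h : ND f) {s : ℝ} (hs : 0 ≤ s) : f s ≤ 640 * Real.exp (-(s / 10)) := by
  have he : Real.exp 2 ≤ 8 := by
    have h1 : Real.exp 2 = Real.exp 1 ^ 2 := by
      rw [← Real.exp_nat_mul]
      norm_num
    rw [h1]
    have := Real.exp_one_lt_d9
    have := Real.exp_pos 1
    nlinarith
  have key : f s ≤ 80 * Real.exp (2 - s / 10) := by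
    by_cases hs1 : s ≤ 15
    · have h1 : 1 ≤ Real.exp (2 - s / 10) := Real.one_le_exp (by linarith)
      have := bound h s
      nlinarith
    · push Not at hs1
      obtain ⟨t, ht, ht1⟩ := t1 h
      obtain ⟨x, hx, hx1⟩ := x2 h
      have h2 := slope h (x := t) (y := x) (s := s) (by linarith [ht.2, hx.1])
        (by linarith [hx.2])
      have h3 : Real.log (f x) - Real.log (f t) ≤ -2 := by
        rw [← Real.log_div (h.pos _).ne' (h.pos _).ne']
        rw [Real.log_le_iff_le_exp (div_pos (h.pos _) (h.pos _)), div_le_iff₀ (h.pos _)]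
        have h4 : 1 / 8 ≤ Real.exp (-2) := by
          rw [Real.exp_neg, one_div]
          exact inv_anti₀ (Real.exp_pos _) he
        have h5 : 1 / 8 * (1 / 8) ≤ Real.exp (-2) * f t :=
          mul_le_mul h4 ht1.le (by norm_num) (Real.exp_pos _).le
        linarith
      have h4 : (s - 2) / 17 ≤ (s - t) / (x - t) := by
        rw [div_le_div_iff₀ (by norm_num) (by linarith [ht.2, hx.1])]
        have e1 : x - t ≤ 17 := by linarith [ht.1, hx.2]
        have e2 : s - 2 ≤ s - t := by linarith [ht.2]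
        have e3 : 0 < x - t := by linarith [ht.2, hx.1]
        nlinarith
      have h5 : Real.log (f s) ≤ Real.log (f t) - 2 * ((s - 2) / 17) := by
        have e1 : 0 ≤ (s - 2) / 17 := by
          apply div_nonneg <;> linarith
        nlinarith
      have h6 : Real.log (f t) ≤ Real.log 80 := Real.log_le_log (h.pos _) (bound h t)
      have h7 : Real.log (f s) ≤ Real.log 80 + (2 - s / 10) := by linarith
      have h8 := Real.exp_le_exp.2 h7
      rw [Real.exp_log (h.pos s), Real.exp_add, Real.exp_log (by norm_num)] at h8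
      exact h8
  have h9 : Real.exp (2 - s / 10) = Real.exp 2 * Real.exp (-(s / 10)) := by
    rw [← Real.exp_add]
    congr 1
  rw [h9] at key
  have h10 := Real.exp_pos (-(s / 10))
  nlinarith

theorem tail (h : ND f) (s : ℝ) : f s ≤ 640 * Real.exp (-(|s| / 10)) := by
  rcases le_total 0 s with hs | hs
  · rw [abs_of_nonneg hs]
    exact tailR h hs
  · rw [abs_of_nonpos hs]
    have := tailR (refl h) (s := -s) (by linarith)
    simpa using this

/-- the fourth moment -/
theorem m4 (h : ND f) : Integrable (fun s => s ^ 4 * f s) ∧ ∫ s, s ^ 4 * f s ≤ 10 ^ 11 := by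
  obtain ⟨hi, hv⟩ := exp_abs (1 / 20) (by norm_num) 0
  have h1 : ∀ s, s ^ 4 * f s ≤ 640 * 160000 * 24 * Real.exp (-(1 / 20 * |s - 0|)) := by
    intro s
    rw [sub_zero]
    have e1 := tail h s
    have e2 := four_exp (x := |s| / 20) (by positivity)
    have e3 : s ^ 4 = 160000 * (|s| / 20) ^ 4 := by
      rw [div_pow, show |s| ^ 4 = (|s| ^ 2) ^ 2 by ring, sq_abs]
      ring
    have e4 : Real.exp (-(|s| / 10)) = Real.exp (-(|s| / 20)) * Real.exp (-(|s| / 20)) := by
      rw [← Real.exp_add]
      congr 1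
      ring
    have e5 : Real.exp (|s| / 20) * Real.exp (-(|s| / 20)) = 1 := by
      rw [← Real.exp_add, add_neg_cancel, Real.exp_zero]
    calc s ^ 4 * f s ≤ s ^ 4 * (640 * Real.exp (-(|s| / 10))) :=
          mul_le_mul_of_nonneg_left e1 (by positivity)
      _ = (|s| / 20) ^ 4 * (640 * 160000 * (Real.exp (-(|s| / 20)) * Real.exp (-(|s| / 20)))) := by
          rw [e3, e4]
          ring
      _ ≤ 24 * Real.exp (|s| / 20) *
          (640 * 160000 * (Real.exp (-(|s| / 20)) * Real.exp (-(|s| / 20)))) :=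
          mul_le_mul_of_nonneg_right e2 (by positivity)
      _ = 640 * 160000 * 24 * (Real.exp (|s| / 20) * Real.exp (-(|s| / 20))) *
          Real.exp (-(|s| / 20)) := by ring
      _ = 640 * 160000 * 24 * Real.exp (-(1 / 20 * |s|)) := by
          rw [e5, mul_one]
          congr 2
          ring
  have h2 : Integrable (fun s => s ^ 4 * f s) := by
    refine (hi.const_mul (640 * 160000 * 24)).mono'
      ((continuous_pow 4).mul h.cont).aestronglyMeasurable (Eventually.of_forall fun s => ?_)
    rw [Real.norm_eq_abs, abs_of_nonneg (by have := h.pos s; positivity)]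
    exact h1 s
  refine ⟨h2, ?_⟩
  have h3 := integral_mono h2 (hi.const_mul (640 * 160000 * 24)) h1
  rw [integral_const_mul, hv] at h3
  norm_num at h3 ⊢
  linarith

/-- the first absolute moment -/
theorem m1 (h : ND f) : 1 / (2 * 10 ^ 6) ≤ ∫ s, |s| * f s := by
  obtain ⟨hi, hv⟩ := m4 h
  have h1 : ∫ s, s ^ 2 * f s ≤ ∫ s, (10 ^ 6 * (|s| * f s) + s ^ 4 * f s / 10 ^ 12) := by
    refine integral_mono h.int2 (((int1' h).const_mul _).add (hi.div_const _)) fun s => ?_
    have hp := h.pos s
    have e1 : s ^ 2 ≤ 10 ^ 6 * |s| + s ^ 4 / 10 ^ 12 := by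
      by_cases hs : |s| ≤ 10 ^ 6
      · have : 0 ≤ s ^ 4 / 10 ^ 12 := by positivity
        have e2 : s ^ 2 = |s| * |s| := by rw [← sq, sq_abs]
        nlinarith [abs_nonneg s]
      · push Not at hs
        have e2 : (10 ^ 12 : ℝ) ≤ s ^ 2 := by
          rw [← sq_abs s]
          calc (10 ^ 12 : ℝ) = (10 ^ 6) ^ 2 := by norm_num
            _ ≤ |s| ^ 2 := pow_le_pow_left₀ (by norm_num) hs.le 2
        have e3 : s ^ 2 ≤ s ^ 4 / 10 ^ 12 := by
          rw [le_div_iff₀ (by norm_num)]
          nlinarith [sq_nonneg s]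
        have : 0 ≤ 10 ^ 6 * |s| := by positivity
        linarith
    show s ^ 2 * f s ≤ 10 ^ 6 * (|s| * f s) + s ^ 4 * f s / 10 ^ 12
    calc s ^ 2 * f s ≤ (10 ^ 6 * |s| + s ^ 4 / 10 ^ 12) * f s :=
          mul_le_mul_of_nonneg_right e1 hp.le
      _ = _ := by ring
  rw [h.var, integral_add ((int1' h).const_mul _) (hi.div_const _), integral_const_mul,
    integral_div] at h1
  have h2 : (∫ s, s ^ 4 * f s) / 10 ^ 12 ≤ 1 / 10 := by
    rw [div_le_div_iff₀ (by norm_num) (by norm_num)]
    linarith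
  rw [div_le_iff₀ (by norm_num)]
  linarith

/-- the mass of the half line -/
theorem mr (h : ND f) : 1 / 10 ^ 14 ≤ ∫ s in Ioi 0, f s := by
  have h1 := m1 h
  have h2 : ∫ s, (|s| * f s + s * f s) = ∫ s, |s| * f s := by
    rw [integral_add (int1' h) (int1 h), h.mean, add_zero]
  have hI : Integrable (fun s => (Ioi (0:ℝ)).indicator f s) := by
    exact h.int0.indicator measurableSet_Ioi
  have h3 : ∫ s, (|s| * f s + s * f s) ≤
      ∫ s, (4 * 10 ^ 6 * (Ioi (0:ℝ)).indicator f s + s ^ 2 * f s / (4 * 10 ^ 6)) := by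
    refine integral_mono ((int1' h).add (int1 h)) ((hI.const_mul _).add (h.int2.div_const _))
      fun s => ?_
    have hp := h.pos s
    show |s| * f s + s * f s ≤
      4 * 10 ^ 6 * (Ioi (0:ℝ)).indicator f s + s ^ 2 * f s / (4 * 10 ^ 6)
    by_cases hs : s ∈ Ioi (0:ℝ)
    · rw [indicator_of_mem hs, abs_of_pos hs]
      have e1 : 2 * s ≤ 4 * 10 ^ 6 + s ^ 2 / (4 * 10 ^ 6) := by
        have e2 : 2 * s * (4 * 10 ^ 6) ≤ (4 * 10 ^ 6) ^ 2 + s ^ 2 := by
          nlinarith [sq_nonneg (s - 4 * 10 ^ 6)]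
        rw [← sub_nonneg]
        have e3 : 4 * 10 ^ 6 + s ^ 2 / (4 * 10 ^ 6) - 2 * s =
          ((4 * 10 ^ 6) ^ 2 + s ^ 2 - 2 * s * (4 * 10 ^ 6)) / (4 * 10 ^ 6) := by
          field_simp
        rw [e3]
        apply div_nonneg
        · linarith
        · norm_num
      calc s * f s + s * f s = 2 * s * f s := by ring
        _ ≤ (4 * 10 ^ 6 + s ^ 2 / (4 * 10 ^ 6)) * f s := mul_le_mul_of_nonneg_right e1 hp.le
        _ = _ := by ring
    · rw [indicator_of_notMem hs]
      simp only [mem_Ioi, not_lt] at hs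
      rw [abs_of_nonpos hs]
      have : 0 ≤ s ^ 2 * f s / (4 * 10 ^ 6) := by positivity
      linarith
  rw [h2, integral_add (hI.const_mul _) (h.int2.div_const _), integral_const_mul, integral_div,
    h.var, integral_indicator measurableSet_Ioi] at h3
  have h4 : 1 / (2 * 10 ^ 6) ≤ 4 * 10 ^ 6 * (∫ s in Ioi (0:ℝ), f s) + 1 / (4 * 10 ^ 6) :=
    h1.trans h3
  rw [div_le_iff₀ (by norm_num)]
  norm_num at h4 ⊢
  linarith

/-- a point on the right with a value bounded below -/
theorem ptR (h : ND f) : ∃ s, 0 ≤ s ∧ 1 / 10 ^ 23 < f s := by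
  have h1 := mr h
  have h2 := cheb h (S := Ioi 0) measurableSet_Ioi (R := 10 ^ 8) (by norm_num)
  have h3 : Ioi (0:ℝ) ∩ Icc (-(10 ^ 8)) (10 ^ 8) ⊆ Icc 0 (10 ^ 8) := by
    intro s hs
    exact ⟨(mem_Ioi.1 hs.1).le, hs.2.2⟩
  have h4 : ∫ s in Ioi (0:ℝ) ∩ Icc (-(10 ^ 8)) (10 ^ 8), f s ≤ ∫ s in Icc 0 (10 ^ 8), f s :=
    setIntegral_mono_set h.int0.integrableOn (Eventually.of_forall fun s => (h.pos s).le)
      (LE.le.eventuallyLE h3)
  obtain ⟨s, hs, hs'⟩ := ex_ge h (a := 0) (b := 10 ^ 8) (m := 1 / 10 ^ 23) (by norm_num) (by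
    have h5 := h1.trans h2
    norm_num at h5 h4 ⊢
    linarith)
  exact ⟨s, hs.1, hs'⟩

theorem zero (h : ND f) : 1 / 10 ^ 23 ≤ f 0 := by
  obtain ⟨x, hx, hx'⟩ := ptR h
  obtain ⟨y, hy, hy'⟩ := ptR (refl h)
  exact minb h (x := -y) (y := x) (z := 0) (by positivity) (by linarith) hx hy'.le hx'.le

theorem right (h : ND f) {t : ℝ} (ht : 0 ≤ t) : ∫ s in Ioi t, f s ≤ 10 ^ 23 * f t := by
  have h0 := zero h
  have h1 : ∫ s in Ioi t, f s = ∫ r in Ioi (0:ℝ), f (t + r) := by
    rw [← integral_indicator measurableSet_Ioi, ← integral_indicator measurableSet_Ioi,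
      ← integral_add_left_eq_self (fun s => (Ioi t).indicator f s) t]
    congr 1
    funext r
    by_cases hr : 0 < r
    · rw [indicator_of_mem (by simpa using hr), indicator_of_mem (by simpa using hr)]
    · rw [indicator_of_notMem (by simpa using hr), indicator_of_notMem (by simpa using hr)]
  have h2 : ∫ r in Ioi (0:ℝ), f (t + r) ≤ ∫ r in Ioi (0:ℝ), 10 ^ 23 * f t * f r := by
    refine setIntegral_mono_on (h.int0.comp_add_left t).integrableOn
      (h.int0.const_mul _).integrableOn measurableSet_Ioi fun r hr => ?_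
    have h3 := four h ht (le_of_lt (mem_Ioi.1 hr))
    have h4 := h.pos (t + r)
    have h5 := h.pos t
    have h6 := h.pos r
    have h7 : 1 ≤ 10 ^ 23 * f 0 := by
      rw [div_le_iff₀ (by norm_num)] at h0
      linarith
    calc f (t + r) = f (t + r) * 1 := (mul_one _).symm
      _ ≤ f (t + r) * (10 ^ 23 * f 0) := mul_le_mul_of_nonneg_left h7 h4.le
      _ = 10 ^ 23 * (f (t + r) * f 0) := by ring
      _ ≤ 10 ^ 23 * (f t * f r) := mul_le_mul_of_nonneg_left h3 (by norm_num)
      _ = _ := by ring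
  rw [integral_const_mul] at h2
  have h3 := mass_le h (Ioi 0)
  have h4 := h.pos t
  rw [h1]
  refine h2.trans ?_
  have h5 : 0 ≤ 10 ^ 23 * f t := by positivity
  nlinarith

theorem one1 : S_ONE := by
  refine ⟨10 ^ 23, by norm_num, fun f h => ?_⟩
  refine ⟨by norm_num, fun s => ?_, zero h, fun t ht => right h ht, fun t ht => ?_, ?_, ?_, ?_, ?_⟩
  · have h1 := tail h s
    have h2 : Real.exp (-(|s| / 10)) ≤ Real.exp (-|s| / 10 ^ 23) := by
      refine Real.exp_le_exp.2 ?_
      rw [neg_div, neg_le_neg_iff]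
      exact div_le_div_of_nonneg_left (abs_nonneg s) (by norm_num) (by norm_num)
    have h3 := Real.exp_pos (-|s| / 10 ^ 23)
    calc f s ≤ 640 * Real.exp (-(|s| / 10)) := h1
      _ ≤ 640 * Real.exp (-|s| / 10 ^ 23) := by linarith
      _ ≤ _ := mul_le_mul_of_nonneg_right (by norm_num) h3.le
  · have h1 := right (refl h) (t := -t) (by linarith)
    rw [neg_neg, integral_comp_neg_Ioi (-t) f, neg_neg] at h1
    exact h1
  · refine le_trans ?_ (mr h)
    norm_num
  · have h1 := mr (refl h)
    rw [integral_comp_neg_Ioi 0 f, neg_zero] at h1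
    refine le_trans ?_ h1
    norm_num
  · refine (m4 h).2.trans ?_
    norm_num
  · refine le_trans ?_ (m1 h)
    norm_num

end Pool.Agent.Y849.RG
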